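import Mathlib
import Pool.Agent.Run7.h296.T12

/-!
# Uniform prime tuplets near partial sums and partial products

In the posed range `n ≤ γ P ^ A` and uniformly in the coefficients:

(1) Of any `R` linear forms, after shifts of the variable taken from given sets (for instance shifts bounded
in terms of `R`), a positive proportion, at least `R / C₁`, are simultaneously prime, and all the others are
almost primes; even along progressions of any length with small difference. A possible exceptional (Siegel)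
modulus is treated explicitly.

(2) ALL the forms of a system are simultaneously prime, after a choice of a partial sum and shifts. There is
`N = N(k, ℓ)` such that for any `N` vectors of multipliers `r u`, of factors `β u` of the constant terms and
of translations `v u` (with `k + 1` components each) there is a nonempty set `T` of indices such that the
`k + 1` forms `a c (∏_{u ∈ T} r u i) (x + ∑_{u ∈ T} v u i + e i) + b c' ∏_{u ∈ T} β u i`, `0 ≤ i ≤ k`, are
different and simultaneously prime (at `ℓ` arguments `x` in progression), with `e i` in a given set, `c` and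
`c'` products of some of the `r u i` and `β u i`. For example, if all the `r u i` and `β u i` are `1`, and
all the vectors `v u` are equal to `v`: the `k + 1` forms `a (x + t v_i + e_i) + b` with `1 ≤ t ≤ N`; if
`a = b = 1`, `v = 0`, and all the vectors are equal to `r`, respectively to `β`: the forms
`c r_i ^ t (x + e_i) + c' β_i ^ t`.

The proof of (1) is a version of the coloured theorem of Maynard and Tao which is uniform in the coefficients
in the range of the theorem of Linnik (`Pool.Agent.Run7.h296.T1`-`T7`), combined with a relative theorem of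
Szemeredi; (2) follows from (1) by the density theorem of Hales and Jewett
(`Pool.Agent.H602R3.DHJ.Main`, a starting file).
-/

set_option autoImplicit false

namespace Pool.Agent.Results.MP_746f10_nt.AllPrimeNearPartialSums

open Finset

theorem result : ∃ (C₁ : ℕ) (Q : ℕ → ℕ) (χ : ∀ i : ℕ, DirichletCharacter ℂ (Q i)), 1 ≤ C₁ ∧
    (∀ i, 1 < Q i ∧ (χ i) ^ 2 = 1 ∧ (χ i).IsPrimitive) ∧
    (∀ B : ℕ, ∀ᶠ i in Filter.atTop, 2 ^ (B * i) ≤ Q i) ∧
    -- (1) a positive proportion of arbitrary forms, after shifts from given sets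
    (∀ R B ℓ : ℕ, 1 ≤ R → ∃ (N A C D : ℕ) (γ : ℝ), 0 < N ∧ 0 < γ ∧ (∀ j, D < Q (j + D)) ∧
      ∀ (a b v : Fin R → ℕ) (E : Fin R → Finset ℕ) (X P : ℕ),
      (∀ i, b i < a i ∧ (a i).Coprime (b i) ∧ a i ∣ P ∧ v i ≤ X) →
      (∀ i, (∀ e ∈ E i, e ≤ X) ∧ ∀ c < N, N ≤ ((E i).filter (fun e => e % N = c)).card) →
      1 ≤ X → X ≤ P → ∀ j : ℕ, 2 ^ 2 ^ j ≤ P → P < 2 ^ 2 ^ (j + 1) →
      ∀ G : Finset (Fin R), G.Nonempty → (∀ i ∈ G, ¬ Q (j + D) ∣ D * a i ∨
        (Q (j + D) ∣ a i ∧ χ (j + D) ((b i : ℕ) : ZMod (Q (j + D))) = -1)) →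
      ∃ (n d : ℕ) (e : Fin R → ℕ) (U : Finset (Fin R)), (n : ℝ) ≤ γ * (P : ℝ) ^ A ∧ 1 ≤ d ∧
        (d : ℝ) ≤ γ * X * Real.log P ^ C ∧ (∀ i, e i ∈ E i) ∧ U ⊆ G ∧ G.card ≤ C₁ * U.card ∧
        ∀ h < ℓ, (∀ i ∈ U, (a i * (n + h * d + v i + e i) + b i).Prime) ∧
          ∀ i, ArithmeticFunction.cardFactors (a i * (n + h * d + v i + e i) + b i) ≤ D ∧
            ∀ p : ℕ, p.Prime → p ∣ a i * (n + h * d + v i + e i) + b i → P ^ B < p) ∧
    -- (2) all the forms of a system, up to partial products, partial sums and shifts from a given set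
    (∀ k ℓ : ℕ, ∃ (N A C D : ℕ) (γ : ℝ), 0 < N ∧ 0 < γ ∧ (∀ j, D < Q (j + D)) ∧
      ∀ (a b : ℕ) (r β v : Fin N → Fin (k + 1) → ℕ) (E : Finset ℕ) (X P : ℕ), 1 ≤ a →
      (∀ u i, 1 ≤ r u i ∧ 1 ≤ β u i ∧ v u i ≤ X) →
      (a * ∏ u, ∏ i, r u i).Coprime (b * ∏ u, ∏ i, β u i) → b * ∏ u, ∏ i, β u i ≤ a * X →
      ((∀ c < N, N ≤ (E.filter (fun e => e % N = c)).card) ∨ ((∀ u i, β u i = 1) ∧ N ≤ E.card)) →
      (∀ e ∈ E, e ≤ X) → 1 ≤ X → X ≤ P → a * ∏ u, ∏ i, r u i ≤ P →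
      ∀ j : ℕ, 2 ^ 2 ^ j ≤ P → P < 2 ^ 2 ^ (j + 1) →
      (¬ Q (j + D) ∣ D * (a * ∏ u, ∏ i, r u i) ∨
        (Q (j + D) ∣ a ∧ χ (j + D) ((b : ℕ) : ZMod (Q (j + D))) = -1 ∧
          ∀ u i, χ (j + D) ((β u i : ℕ) : ZMod (Q (j + D))) = 1)) →
      ∃ (n d c c' : ℕ) (T : Finset (Fin N)) (e : Fin (k + 1) → ℕ), (n : ℝ) ≤ γ * (P : ℝ) ^ A ∧
        1 ≤ d ∧ (d : ℝ) ≤ γ * X * Real.log P ^ C ∧ T.Nonempty ∧ c ∣ ∏ u, ∏ i, r u i ∧
        c' ∣ ∏ u, ∏ i, β u i ∧ (∀ i, e i ∈ E) ∧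
        Function.Injective (fun i => (∏ u ∈ T, r u i,
          a * c * (∏ u ∈ T, r u i) * (∑ u ∈ T, v u i + e i) + b * c' * ∏ u ∈ T, β u i)) ∧
        ∀ i, ∀ h < ℓ,
          (a * c * (∏ u ∈ T, r u i) * (n + h * d + ∑ u ∈ T, v u i + e i) +
            b * c' * ∏ u ∈ T, β u i).Prime) := by
  obtain ⟨C₁, Q, χ, hC₁, hQ, hgrow, hgen⟩ := Run7.h296.gen
  exact ⟨C₁, Q, χ, hC₁, hQ, hgrow, fun R B ℓ hR => Run7.h296.part_oneE hC₁ hgen R B ℓ hR,
    fun k ℓ => Run7.h296.part_twoE hC₁ hgen k ℓ⟩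

end Pool.Agent.Results.MP_746f10_nt.AllPrimeNearPartialSums
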