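import Pool.Agent.Run7.h90.AU.Shift

set_option autoImplicit false

/-!
# Admissible sets of linear forms at the members of thin families of residues modulo a prime

Let `p` be a large prime and let `(v_i)`, `i ∈ s`, be a family of residues modulo `p` whose exponential sums
`∑ e(ξ v_i / p)`, `ξ ≠ 0`, are at most `p ^ (-ε) |s|`; the family may be very thin. Examples: the values of a sparse
polynomial of arbitrary degree on a subgroup of order `p ^ η`, the values `c_1 g_1 ^ n + ... + c_k g_k ^ n`, `n < N`,
`N ≥ p ^ η`. The theorem is about the integers `n` congruent to a member of the family modulo `p` in an interval of length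
`L ≥ p ^ (1 - δ)`. For every
`k ≥ 1`, uniformly in all admissible sets of `k` linear forms `a_i x + b_i`, `1 ≤ b_i < a_i`, `a_1 ... a_k ≤ p ^ A`, the
numbers `a_i n + b_i` are simultaneously without prime factors up to `z` with the frequency predicted by the conjecture of
Bateman and Horn for primes. In particular (`M = 0`, `L = p`) for every `κ > 0` there are such `n ≤ (a_1 ... a_k) ^ κ`, in
the residue classes of any of these families, for which all `a_i n + b_i` are products of a bounded number of primes.

Proof: bound of Bourgain, Glibichuk and Konyagin in the form for recurrences and monomials (`Agent/Run7/h823/BK9`);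
equidistribution in the residue classes modulo all integers up to `p ^ δ` and the fundamental lemma of the sieve
(`Agent/Run7/h90/AU`).
-/

namespace Pool.Agent.Results.MP_746f10_nt.LinearFormsInSparseFamilies

open Finset Filter Topology
open Pool.Agent.Run7.h90.AU (UniformFormula UniformOrders SparseSmall RecurrencesSmall)

/-- A set of `k` linear forms `a_i x + b_i`, given by the coefficients `(a, b)`. -/
abbrev Forms (k : ℕ) : Type := (Fin k → ℕ) × (Fin k → ℕ)

/-- The forms are different, `1 ≤ b_i < a_i`, and for every prime `q` there is an integer `n` such that `q` divides none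
of the numbers `a_i n + b_i`. -/
def Admissible (k : ℕ) (f : Forms k) : Prop :=
  (∀ i j, i ≠ j → (f.1 i, f.2 i) ≠ (f.1 j, f.2 j)) ∧ (∀ i, 1 ≤ f.2 i ∧ f.2 i < f.1 i) ∧
    ∀ q : ℕ, q.Prime → ∃ n : ℤ, ∀ i, ¬ (q : ℤ) ∣ f.1 i * n + f.2 i

/-- All the numbers `a_i n + b_i` have the property `P`. -/
def All (k : ℕ) (f : Forms k) (P : ℕ → Prop) (n : ℕ) : Prop := ∀ i, P (f.1 i * n + f.2 i)

/-- The number of the residues `n` modulo `q` for which `q` divides one of the numbers `a_i n + b_i`. -/
def w (k : ℕ) (f : Forms k) (q : ℕ) : ℕ := ((range q).filter fun n => q ∣ ∏ i, (f.1 i * n + f.2 i)).card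

/-- The partial products, over the primes `q ≤ z`, of the constant of Bateman and Horn. -/
noncomputable def partialConstant (k : ℕ) (f : Forms k) (z : ℕ) : ℝ :=
  ∏ q ∈ (range (z + 1)).filter Nat.Prime, ((1 - (w k f q : ℝ) / q) / (1 - 1 / (q : ℝ)) ^ k)

/-- The product of the leading coefficients. -/
noncomputable def size (k : ℕ) (f : Forms k) : ℝ := ∏ i, (f.1 i : ℝ)

theorem isPat (k : ℕ) : Pool.Agent.Run7.h90.AU.Pat k (All k) (partialConstant k) (size k) (Admissible k)
    (fun f i => (f.2 i : ℤ)) (fun f i => (f.1 i : ℤ)) where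
  nd := by
    intro f hf
    have cop : ∀ i, (f.1 i).Coprime (f.2 i) := by
      intro i
      rw [Nat.coprime_iff_gcd_eq_one]
      by_contra hcon
      obtain ⟨q, hq, hd⟩ := Nat.exists_prime_and_dvd hcon
      obtain ⟨n, hn⟩ := hf.2.2 q hq
      apply hn i
      have h1 : (q : ℤ) ∣ f.1 i := by exact_mod_cast hd.trans (Nat.gcd_dvd_left _ _)
      have h2 : (q : ℤ) ∣ f.2 i := by exact_mod_cast hd.trans (Nat.gcd_dvd_right _ _)
      exact dvd_add (h1.mul_right n) h2
    refine ⟨fun i => ?_, fun i j hij h => ?_, fun l hl => ?_⟩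
    · have := hf.2.1 i
      have h1 : f.1 i ≠ 0 := by omega
      show ((f.1 i : ℕ) : ℤ) ≠ 0
      exact_mod_cast h1
    · have h0 : ((f.2 i : ℕ) : ℤ) * ((f.1 j : ℕ) : ℤ) = ((f.2 j : ℕ) : ℤ) * ((f.1 i : ℕ) : ℤ) := h
      have h1 : f.2 i * f.1 j = f.2 j * f.1 i := by exact_mod_cast h0
      apply hf.1 i j hij
      have h2 : f.1 i ∣ f.1 j := (cop i).dvd_of_dvd_mul_left (by rw [h1]; exact dvd_mul_left _ _)
      have h3 : f.1 j ∣ f.1 i := (cop j).dvd_of_dvd_mul_left (by rw [← h1]; exact dvd_mul_left _ _)
      have h4 : f.1 i = f.1 j := Nat.dvd_antisymm h2 h3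
      have h5 : f.2 i = f.2 j := by
        rw [h4] at h1
        have := hf.2.1 j
        exact Nat.eq_of_mul_eq_mul_right (by omega) h1
      rw [h4, h5]
    · obtain ⟨n, hn⟩ := hf.2.2 l hl
      refine ⟨n, fun hd => ?_⟩
      obtain ⟨j, -, hj⟩ := (Prime.dvd_finset_prod_iff (Nat.prime_iff_prime_int.1 hl) _).1 hd
      apply hn j
      rw [add_comm]
      exact hj
  sa := by
    intro f hf i
    have h1 : f.2 i ≤ ∏ j, f.1 j := by
      have h2 : f.1 i ≤ ∏ j, f.1 j :=
        Nat.le_of_dvd (prod_pos fun j _ => by have := hf.2.1 j; omega) (dvd_prod_of_mem f.1 (mem_univ i))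
      have := hf.2.1 i
      omega
    unfold size
    simp only [Int.cast_natCast]
    rw [abs_of_nonneg (by positivity)]
    exact_mod_cast h1
  sd := by
    intro f hf i
    have h2 : f.1 i ≤ ∏ j, f.1 j :=
      Nat.le_of_dvd (prod_pos fun j _ => by have := hf.2.1 j; omega) (dvd_prod_of_mem f.1 (mem_univ i))
    unfold size
    simp only [Int.cast_natCast]
    rw [abs_of_nonneg (by positivity)]
    exact_mod_cast h2
  pat := by
    intro f hf P n hn
    unfold All
    have e1 : ∀ i, ((f.2 i : ℤ) + (f.1 i : ℤ) * (n : ℤ)).natAbs = f.1 i * n + f.2 i := by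
      intro i
      have : ((f.2 i : ℤ) + (f.1 i : ℤ) * (n : ℤ)) = ((f.1 i * n + f.2 i : ℕ) : ℤ) := by push_cast; ring
      rw [this, Int.natAbs_natCast]
    simp only [e1]
  con := by
    intro f hf
    refine Eventually.of_forall fun z => ?_
    unfold partialConstant Pool.Agent.Run7.h90.AU.psing
    refine prod_congr rfl fun q _ => ?_
    have e : Pool.Agent.Run7.h90.AU.om (fun i => (f.2 i : ℤ)) (fun i => (f.1 i : ℤ)) q = w k f q := by
      unfold Pool.Agent.Run7.h90.AU.om w
      congr 1
      ext n
      rw [mem_filter, mem_filter]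
      have : ∏ j, ((f.2 j : ℤ) + (f.1 j : ℤ) * (n : ℤ)) = ((∏ i, (f.1 i * n + f.2 i) : ℕ) : ℤ) := by
        push_cast
        exact prod_congr rfl fun j _ => by ring
      rw [this, Int.natCast_dvd_natCast]
    rw [e]

theorem result : (∀ k : ℕ, 1 ≤ k → UniformFormula k (All k) (partialConstant k) (size k) (Admissible k) ∧
    UniformOrders k (All k) (partialConstant k) (size k) (Admissible k)) ∧ SparseSmall ∧ RecurrencesSmall :=
  ⟨fun k _ => ⟨(isPat k).formula, (isPat k).orders⟩, Pool.Agent.Run7.h90.AU.sparse_small,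
    Pool.Agent.Run7.h90.AU.rec_small⟩

end Pool.Agent.Results.MP_746f10_nt.LinearFormsInSparseFamilies
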