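import Mathlib
import Pool.Agent.Run7.h296.T16

/-!
# Uniform prime tuplets: all members of a family of forms but a bounded number in lists with prime windows;
# primes in many classes of forms

Everything is uniform in the coefficients, in the posed range `n ≤ γ P ^ A`, and along arithmetic progressions
with small difference. A possible Siegel zero is taken into account explicitly: there is a sparse sequence of
exceptional moduli `Q i` with real primitive characters `χ i`. At the scale `2 ^ 2 ^ j ≤ P < 2 ^ 2 ^ (j + 1)`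
the form `a x + b` is not affected if `Q (j + D)` does not divide `D a`, or if it divides `a` and
`χ (j + D)` is `-1` at `b` (`Unaffected`). The sequences `Q`, `χ` do not depend on the lengths.

(1) Lists. There is an absolute number `r` such that for every `k` the following holds with a constant
`N = N(k, ℓ)`. Let `F` be ANY finite set of forms `a x + b`, `1 ≤ b < a ≤ X`, `(a, b) = 1`, which are not
affected, and which is locally admissible for the primes `p ≤ N`. Then all members of `F` with at most `N`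
exceptions can be arranged in `r` lists such that any at most `k` successive members of a list are
simultaneously prime at all terms of some progression `n + h d`, `h < ℓ`, with `n ≤ γ X ^ A` and
`1 ≤ d ≤ γ (log X) ^ C`. The conjecture predicts this for one list, in any order. In addition any `N` members
of `F` include `k` members with this property.

(2) Classes. For every admissible set of `s ≤ k` forms, every subset `G` of not affected forms, and every
colouring of the forms with at most `w` members of `G` in each colour, there are such `n`, `d` (with `P` any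
common multiple of the `a_i`) for which the forms of `G` which are prime at all `n + h d` have at least
`c min (|G| / w, (|G| / s) log s)` different colours, while all forms are almost primes there; and at least
one form of `G` is prime, if `G` is not empty. Special cases: `w = 1`: at least `c (|G| / s) log s` of the forms
are simultaneously prime; `w ≥ s / log s`: primes in a positive proportion `c |G| / w` of the colours;
`G = {r}`: the prescribed form `a_r x + b_r` is prime, and all the other ones are almost primes.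
-/

set_option autoImplicit false

open Finset

namespace Pool.Agent.Results.MP_746f10_nt.ListsAndClassesOfForms

/-- the form `a x + b` is not affected by the modulus `q` and its character `χ` -/
def Unaffected (q : ℕ) (χ : DirichletCharacter ℂ q) (D a b : ℕ) : Prop :=
  ¬ q ∣ D * a ∨ (q ∣ a ∧ χ ((b : ℕ) : ZMod q) = -1)

/-- `F` is a set of primitive forms `f.1 x + f.2` with `1 ≤ f.2 < f.1 ≤ X` which are not affected, and for
every prime `p ≤ N` there is an integer at which no form of `F` vanishes modulo `p`. -/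
def Family (N X D q : ℕ) (χ : DirichletCharacter ℂ q) (F : Finset (ℕ × ℕ)) : Prop :=
  (∀ f ∈ F, 1 ≤ f.2 ∧ f.2 < f.1 ∧ f.1.Coprime f.2 ∧ f.1 ≤ X ∧ Unaffected q χ D f.1 f.2) ∧
  ∀ p : ℕ, p.Prime → p ≤ N → ∃ n : ℤ, ∀ f ∈ F, ¬ (p : ℤ) ∣ f.1 * n + f.2

/-- The forms of `s` are simultaneously prime at `n`, `n + d`, ..., `n + (ℓ - 1) d` for some
`n ≤ γ X ^ A` and `1 ≤ d ≤ γ (log X) ^ C`. -/
def PrimeAlong (X ℓ A C : ℕ) (γ : ℝ) (s : Finset (ℕ × ℕ)) : Prop :=
  ∃ n d : ℕ, (n : ℝ) ≤ γ * (X : ℝ) ^ A ∧ 1 ≤ d ∧ (d : ℝ) ≤ γ * Real.log X ^ C ∧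
    ∀ f ∈ s, ∀ h < ℓ, (f.1 * (n + h * d) + f.2).Prime

open Classical in
theorem result : ∃ (c : ℝ) (r : ℕ) (Q : ℕ → ℕ) (χ : ∀ i : ℕ, DirichletCharacter ℂ (Q i)),
    0 < c ∧ 1 ≤ r ∧ (∀ i, 1 < Q i ∧ (χ i) ^ 2 = 1 ∧ (χ i).IsPrimitive) ∧
    (∀ B : ℕ, ∀ᶠ i in Filter.atTop, 2 ^ (B * i) ≤ Q i) ∧
    -- (1) lists with prime windows
    (∀ k ℓ : ℕ, ∃ (N A C D : ℕ) (γ : ℝ), 0 < γ ∧ (∀ j, D < Q (j + D)) ∧
      ∀ X j : ℕ, 2 ^ 2 ^ j ≤ X → X < 2 ^ 2 ^ (j + 1) → ∀ F : Finset (ℕ × ℕ),
      Family N X D (Q (j + D)) (χ (j + D)) F →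
      (∃ e : Fin r → List (ℕ × ℕ), (∀ i, (e i).Nodup) ∧
        (∀ i i', i ≠ i' → List.Disjoint (e i) (e i')) ∧ (∀ i, ∀ f ∈ e i, f ∈ F) ∧
        (F.filter (fun f => ∀ i, f ∉ e i)).card ≤ N ∧
        ∀ i, ∀ w : List (ℕ × ℕ), w <:+: e i → w.length ≤ k → PrimeAlong X ℓ A C γ w.toFinset) ∧
      ∀ Y ⊆ F, N ≤ Y.card → ∃ s ⊆ Y, s.card = k ∧ PrimeAlong X ℓ A C γ s) ∧
    -- (2) primes in many classes, and all the other values almost primes
    (∀ k B ℓ : ℕ, ∃ (A C D R : ℕ) (γ : ℝ), 0 < γ ∧ 0 < D ∧ (∀ j, D < Q (j + D)) ∧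
      ∀ s ≤ k, ∀ (a b : Fin s → ℕ) (P : ℕ), (∀ i, 1 ≤ b i ∧ b i < a i) →
      Function.Injective (fun i => (a i, b i)) →
      (∀ p : ℕ, p.Prime → ∃ n : ℤ, ∀ i, ¬ (p : ℤ) ∣ a i * n + b i) → (∀ i, a i ∣ P) →
      ∀ j : ℕ, 2 ^ 2 ^ j ≤ P → P < 2 ^ 2 ^ (j + 1) →
      ∀ G : Finset (Fin s), (∀ i ∈ G, Unaffected (Q (j + D)) (χ (j + D)) D (a i) (b i)) →
      ∀ (colour : Fin s → ℕ) (w : ℕ), 1 ≤ w →
      (∀ x, (G.filter (fun i => colour i = x)).card ≤ w) →
      ∃ (n d : ℕ) (U : Finset (Fin s)), (n : ℝ) ≤ γ * (P : ℝ) ^ A ∧ 1 ≤ d ∧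
        (d : ℝ) ≤ γ * Real.log P ^ C ∧ U ⊆ G ∧ (G.Nonempty → U.Nonempty) ∧
        ⌊c * min ((G.card : ℝ) / w) ((G.card : ℝ) / s * Real.log s)⌋₊ ≤ (U.image colour).card ∧
        ∀ h < ℓ, (∀ i ∈ U, (a i * (n + h * d) + b i).Prime) ∧
          ∀ i, ArithmeticFunction.cardFactors (a i * (n + h * d) + b i) ≤ R ∧
            ∀ p : ℕ, p.Prime → p ∣ a i * (n + h * d) + b i → P ^ B < p) := by
  obtain ⟨c, r, Q, χ, hc, hr, hQ, hgrow, hfam, hlists⟩ := Run7.h296.both
  refine ⟨c, r, Q, χ, hc, hr, hQ, hgrow, ?_, ?_⟩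
  · intro k ℓ
    obtain ⟨N, A, C, D, γ, h1, h2, h3⟩ := hlists k ℓ
    refine ⟨N, A, C, D, γ, h1, h2, ?_⟩
    intro X j hj hj' F hF
    obtain ⟨⟨e, h4, h5, h6, h7, h8⟩, h9⟩ := h3 X j hj hj' F hF
    refine ⟨⟨e, h4, h5, h6, ?_, h8⟩, h9⟩
    convert h7
  · intro k B ℓ
    obtain ⟨A, C, D, R, γ, h1, h2, h3, h4⟩ := hfam k B ℓ
    refine ⟨A, C, D, R, γ, h1, h2, h3, ?_⟩
    intro s hs a b P hab hinj hadm haP j hj hj' G hG colour w hw hcol
    exact h4 s hs a b P hab hinj hadm haP j hj hj' G hG colour w hw (by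
      intro x
      convert hcol x)

end Pool.Agent.Results.MP_746f10_nt.ListsAndClassesOfForms
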