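import Pool.Agent.Run7.h296.X12

/-!
One prescribed form prime and all the others almost prime, uniformly in the coefficients and without
exceptions.

Let `a_i x + b_i` (`i = 1, ..., k`) be an admissible set of distinct forms with `1 ≤ b_i < a_i`, and let
`P` be the product of the `a_i`. For every index `i₀` there is an `n` with `0 ≤ n ≤ γ P ^ A` such that
`a_{i₀} n + b_{i₀}` is prime and all the other numbers `a_i n + b_i` are products of at most `R` primes,
each of them larger than `P ^ B`. The constants `A`, `R` and `γ` depend on `k` and on the arbitrary
exponent `B` only. For `k = 1` this is Linnik's theorem; for `k ≥ 2` it is the theorem of Rényi on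
`p + 2 = P_R` for all admissible sets of `k` forms with `n` at most a power of the product of the
coefficients, that is, with moduli as large as in Linnik's theorem.

The proof has two cases. Either the class of `b_{i₀}` is not affected by a real character with a small value
near `1`, or the character is `-1` there: then the primes in the class are counted from below by the Selberg
formula, with the weights of a sieve of Maynard type and a beta sieve on the other forms. Or the character is
`1` there: then it is `-1` at most primes, the numbers with a divisor sum `∑_{d ∣ n} χ(d)` which is not `0`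
are sieved instead, and only the primes remain.
-/

set_option autoImplicit false

open Finset

namespace Pool.Agent.Results.MP_746f10_nt.PrescribedPrime

theorem result (k B : ℕ) : ∃ (A R : ℕ) (γ : ℝ), 0 < γ ∧
    ∀ a b : Fin k → ℕ, (∀ i, 1 ≤ b i ∧ b i < a i) → Function.Injective (fun i => (a i, b i)) →
    (∀ p : ℕ, p.Prime → ∃ n : ℤ, ∀ i, ¬ (p : ℤ) ∣ a i * n + b i) →
    ∀ i₀ : Fin k, ∃ n : ℕ, (n : ℝ) ≤ γ * ((∏ i, a i : ℕ) : ℝ) ^ A ∧
      (a i₀ * n + b i₀).Prime ∧
      ∀ i, ArithmeticFunction.cardFactors (a i * n + b i) ≤ R ∧
        ∀ p : ℕ, p.Prime → p ∣ a i * n + b i → (∏ i, a i) ^ B < p :=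
  Run7.h296.main1 k B

end Pool.Agent.Results.MP_746f10_nt.PrescribedPrime
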